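import Mathlib

/-!
# Kernels of normal Carleman operators

If `N` is a normal Carleman operator on `L²(a,b)` with kernel `ν`, then `∫ |ν(x,y)|² dx < ∞` for
almost every `y`.
-/

set_option autoImplicit false

namespace Pool.Agent.Results.MP_0ee9ff_an.NormalCarleman

open MeasureTheory ENNReal Set

section General

variable {X : Type} [MeasurableSpace X] {μ : Measure X}

theorem enorm_sq_eq (f : Lp ℂ 2 μ) : ‖f‖ₑ ^ 2 = ∫⁻ x, ‖f x‖ₑ ^ 2 ∂μ := by
  rw [Lp.enorm_def, eLpNorm_eq_lintegral_rpow_enorm_toReal (by norm_num) (by norm_num)]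
  rw [← ENNReal.rpow_natCast, ← ENNReal.rpow_mul]
  simp

theorem parseval {ι : Type} {H : Type} [NormedAddCommGroup H] [InnerProductSpace ℂ H]
    (b : HilbertBasis ι ℂ H) (g : H) : ∑' i, ‖inner ℂ g (b i)‖ₑ ^ 2 = ‖g‖ₑ ^ 2 := by
  have h := b.hasSum_inner_mul_inner g g
  have h1 : HasSum (fun i => ‖inner ℂ g (b i)‖ ^ 2) (‖g‖ ^ 2) := by
    have h2 := Complex.hasSum_re h
    convert h2 using 1
    · funext i
      rw [← inner_conj_symm (b i) g, RCLike.mul_conj]
      norm_cast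
    · rw [inner_self_eq_norm_sq_to_K]
      norm_cast
  have h3 : ∀ z : ℝ, 0 ≤ z → ENNReal.ofReal (z ^ 2) = (ENNReal.ofReal z) ^ 2 :=
    fun z hz => ENNReal.ofReal_pow hz 2
  have h4 := ENNReal.ofReal_tsum_of_nonneg (f := fun i => ‖inner ℂ g (b i)‖ ^ 2)
    (fun i => by positivity) h1.summable
  rw [h1.tsum_eq, h3 _ (norm_nonneg _), ofReal_norm] at h4
  rw [h4]
  apply tsum_congr
  intro i
  rw [h3 _ (norm_nonneg _), ofReal_norm]

theorem hs_adjoint {ι : Type} {H : Type} [NormedAddCommGroup H] [InnerProductSpace ℂ H]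
    [CompleteSpace H] (b : HilbertBasis ι ℂ H) (A : H →L[ℂ] H) :
    ∑' i, ‖A (b i)‖ₑ ^ 2 = ∑' i, ‖(ContinuousLinearMap.adjoint A) (b i)‖ₑ ^ 2 := by
  have h1 : ∀ i, ‖A (b i)‖ₑ ^ 2 = ∑' j, ‖inner ℂ (A (b i)) (b j)‖ₑ ^ 2 :=
    fun i => (parseval b _).symm
  have h2 : ∀ j, ‖(ContinuousLinearMap.adjoint A) (b j)‖ₑ ^ 2 =
      ∑' i, ‖inner ℂ (A (b i)) (b j)‖ₑ ^ 2 := by
    intro j
    rw [← parseval b]
    apply tsum_congr
    intro i
    rw [ContinuousLinearMap.adjoint_inner_left]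
    congr 1
    rw [← ofReal_norm, ← ofReal_norm, norm_inner_symm]
  simp_rw [h1, h2]
  exact ENNReal.tsum_comm

theorem hs_kernel [SFinite μ] {ι : Type} [Countable ι] (b : HilbertBasis ι ℂ (Lp ℂ 2 μ))
    (A : Lp ℂ 2 μ →L[ℂ] Lp ℂ 2 μ) (k : X → X → ℂ) (hk : Measurable (Function.uncurry k))
    (hsq : ∀ᵐ x ∂μ, ∫⁻ y, ‖k x y‖ₑ ^ 2 ∂μ < ∞)
    (happ : ∀ f : Lp ℂ 2 μ, ∀ᵐ x ∂μ, A f x = ∫ y, k x y * f y ∂μ) :
    ∑' i, ‖A (b i)‖ₑ ^ 2 = ∫⁻ x, ∫⁻ y, ‖k x y‖ₑ ^ 2 ∂μ ∂μ := by
  simp_rw [enorm_sq_eq]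
  rw [← lintegral_tsum]
  · apply lintegral_congr_ae
    have hall : ∀ᵐ x ∂μ, ∀ i, A (b i) x = ∫ y, k x y * (b i) y ∂μ :=
      ae_all_iff.2 (fun i => happ (b i))
    filter_upwards [hsq, hall] with x hx hxa
    have hkx : Measurable (k x) := hk.comp measurable_prodMk_left
    have hmem : MemLp (fun y => (starRingEnd ℂ) (k x y)) 2 μ := by
      refine ⟨(Complex.continuous_conj.measurable.comp hkx).aestronglyMeasurable, ?_⟩
      rw [eLpNorm_eq_lintegral_rpow_enorm_toReal (by norm_num) (by norm_num)]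
      apply ENNReal.rpow_lt_top_of_nonneg (by positivity)
      apply ne_of_lt
      convert hx using 3 with y
      rw [← ofReal_norm, ← ofReal_norm, RCLike.norm_conj]
      simp
    have hpar := parseval b (hmem.toLp _)
    rw [enorm_sq_eq] at hpar
    have h1 : ∫⁻ y, ‖(hmem.toLp _ : Lp ℂ 2 μ) y‖ₑ ^ 2 ∂μ = ∫⁻ y, ‖k x y‖ₑ ^ 2 ∂μ := by
      apply lintegral_congr_ae
      filter_upwards [hmem.coeFn_toLp] with y hy
      rw [hy, ← ofReal_norm, ← ofReal_norm, RCLike.norm_conj]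
    rw [← h1, ← hpar]
    apply tsum_congr
    intro i
    rw [hxa i, L2.inner_def]
    congr 2
    apply integral_congr_ae
    filter_upwards [hmem.coeFn_toLp] with y hy
    rw [hy]
    simp [mul_comm]
  · intro i
    exact (Lp.aestronglyMeasurable _).enorm.pow_const 2

/-- multiplication by the indicator function of `E` -/
noncomputable def ind {E : Set X} (hE : MeasurableSet E) : Lp ℂ 2 μ →L[ℂ] Lp ℂ 2 μ :=
  LinearMap.mkContinuous
    { toFun := fun f => ((Lp.memLp f).indicator hE).toLp _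
      map_add' := by
        intro f g
        ext1
        filter_upwards [((Lp.memLp (f + g)).indicator hE).coeFn_toLp,
          ((Lp.memLp f).indicator hE).coeFn_toLp, ((Lp.memLp g).indicator hE).coeFn_toLp,
          Lp.coeFn_add (((Lp.memLp f).indicator hE).toLp _) (((Lp.memLp g).indicator hE).toLp _),
          Lp.coeFn_add f g] with x h1 h2 h3 h4 h5
        rw [h1, h4, Pi.add_apply, h2, h3]
        by_cases hx : x ∈ E
        · rw [indicator_of_mem hx, indicator_of_mem hx, indicator_of_mem hx, h5, Pi.add_apply]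
        · simp [hx]
      map_smul' := by
        intro c f
        ext1
        filter_upwards [((Lp.memLp (c • f)).indicator hE).coeFn_toLp,
          ((Lp.memLp f).indicator hE).coeFn_toLp,
          Lp.coeFn_smul c (((Lp.memLp f).indicator hE).toLp _),
          Lp.coeFn_smul c f] with x h1 h2 h4 h5
        simp only [RingHom.id_apply]
        rw [h1, h4, Pi.smul_apply, h2]
        by_cases hx : x ∈ E
        · simp [hx, h5]
        · simp [hx] }
    1 (by
      intro f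
      rw [one_mul]
      simp only [LinearMap.coe_mk, AddHom.coe_mk]
      rw [Lp.norm_toLp]
      rw [Lp.norm_def]
      apply ENNReal.toReal_mono (Lp.eLpNorm_ne_top f)
      exact eLpNorm_indicator_le _)

theorem ind_ae {E : Set X} (hE : MeasurableSet E) (f : Lp ℂ 2 μ) :
    (ind hE f : X → ℂ) =ᵐ[μ] E.indicator f :=
  ((Lp.memLp f).indicator hE).coeFn_toLp

theorem ind_adjoint {E : Set X} (hE : MeasurableSet E) :
    ContinuousLinearMap.adjoint (ind (μ := μ) hE) = ind hE := by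
  symm
  rw [ContinuousLinearMap.eq_adjoint_iff]
  intro f g
  rw [L2.inner_def, L2.inner_def]
  apply integral_congr_ae
  filter_upwards [ind_ae hE f, ind_ae hE g] with x h1 h2
  rw [h1, h2]
  by_cases hx : x ∈ E
  · simp [hx]
  · simp [hx]

theorem countable_basis {ι : Type} {H : Type} [NormedAddCommGroup H] [InnerProductSpace ℂ H]
    [TopologicalSpace.SeparableSpace H] (b : HilbertBasis ι ℂ H) : Countable ι := by
  have hd : ∀ i j, i ≠ j → 1 < dist (b i) (b j) := by
    intro i j hij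
    have h0 := b.orthonormal.2 hij
    have h1 : ‖b i - b j‖ ^ 2 = 2 := by
      rw [@norm_sub_sq ℂ, h0, b.orthonormal.1 i, b.orthonormal.1 j]
      norm_num
    rw [dist_eq_norm]
    nlinarith [norm_nonneg (b i - b j)]
  rw [← Set.countable_univ_iff]
  apply Set.PairwiseDisjoint.countable_of_isOpen (s := fun i => Metric.ball (b i) (1 / 2))
  · intro i _ j _ hij
    apply Metric.ball_disjoint_ball
    have := hd i j hij
    linarith
  · intro i _
    exact Metric.isOpen_ball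
  · intro i _
    exact Metric.nonempty_ball.2 (by norm_num)

theorem general [SigmaFinite μ] [TopologicalSpace.SeparableSpace (Lp ℂ 2 μ)]
    (N : Lp ℂ 2 μ →L[ℂ] Lp ℂ 2 μ)
    (hN : N ∘L ContinuousLinearMap.adjoint N = ContinuousLinearMap.adjoint N ∘L N)
    (k : X → X → ℂ) (hk : Measurable (Function.uncurry k))
    (hsq : ∀ᵐ x ∂μ, ∫⁻ y, ‖k x y‖ₑ ^ 2 ∂μ < ∞)
    (happ : ∀ f : Lp ℂ 2 μ, ∀ᵐ x ∂μ, N f x = ∫ y, k x y * f y ∂μ) :
    ∀ᵐ y ∂μ, ∫⁻ x, ‖k x y‖ₑ ^ 2 ∂μ < ∞ := by
  obtain ⟨w, b, -⟩ := exists_hilbertBasis ℂ (Lp ℂ 2 μ)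
  have : Countable w := countable_basis b
  have hnorm : ∀ f, ‖ContinuousLinearMap.adjoint N f‖ = ‖N f‖ := by
    intro f
    have h1 : ‖ContinuousLinearMap.adjoint N f‖ ^ 2 = ‖N f‖ ^ 2 := by
      have h2 : inner ℂ (ContinuousLinearMap.adjoint N f) (ContinuousLinearMap.adjoint N f) =
          inner ℂ (N f) (N f) := by
        rw [ContinuousLinearMap.adjoint_inner_left]
        have h3 : N (ContinuousLinearMap.adjoint N f) = ContinuousLinearMap.adjoint N (N f) :=
          congrArg (fun T : Lp ℂ 2 μ →L[ℂ] Lp ℂ 2 μ => T f) hN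
        rw [h3, ContinuousLinearMap.adjoint_inner_right]
      rw [inner_self_eq_norm_sq_to_K, inner_self_eq_norm_sq_to_K] at h2
      exact_mod_cast h2
    exact (pow_left_inj₀ (norm_nonneg _) (norm_nonneg _) two_ne_zero).1 h1
  have hmeas : Measurable fun x => ∫⁻ y, ‖k x y‖ₑ ^ 2 ∂μ :=
    Measurable.lintegral_prod_right' (f := fun p : X × X => ‖k p.1 p.2‖ₑ ^ 2)
      (hk.enorm.pow_const 2)
  -- the claim on good sets
  have key : ∀ M : ℕ, ∀ᵐ y ∂μ, y ∈ (spanningSets μ M ∩ {x | ∫⁻ y, ‖k x y‖ₑ ^ 2 ∂μ ≤ M}) →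
      ∫⁻ x, ‖k x y‖ₑ ^ 2 ∂μ < ∞ := by
    intro M
    set E : Set X := spanningSets μ M ∩ {x | ∫⁻ y, ‖k x y‖ₑ ^ 2 ∂μ ≤ M} with hEdef
    have hE : MeasurableSet E :=
      (measurableSet_spanningSets μ M).inter (measurableSet_le hmeas measurable_const)
    have hEfin : μ E < ∞ :=
      lt_of_le_of_lt (measure_mono inter_subset_left) (measure_spanningSets_lt_top μ M)
    -- kernel of `P_E N`
    have h1 : ∑' i, ‖(ind hE ∘L N) (b i)‖ₑ ^ 2 =
        ∫⁻ x, ∫⁻ y, ‖E.indicator (fun _ => (1 : ℂ)) x * k x y‖ₑ ^ 2 ∂μ ∂μ := by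
      apply hs_kernel b
      · apply Measurable.mul _ hk
        exact (measurable_const.indicator hE).comp measurable_fst
      · filter_upwards [hsq] with x hx
        by_cases hxE : x ∈ E
        · simpa [hxE] using hx
        · simp [hxE]
      · intro f
        filter_upwards [ind_ae hE (N f), happ f] with x h1 h2
        rw [ContinuousLinearMap.comp_apply, h1]
        by_cases hxE : x ∈ E
        · simp [hxE, h2]
        · simp [hxE]
    -- kernel of `N P_E`
    have h2 : ∑' i, ‖(N ∘L ind hE) (b i)‖ₑ ^ 2 =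
        ∫⁻ x, ∫⁻ y, ‖k x y * E.indicator (fun _ => (1 : ℂ)) y‖ₑ ^ 2 ∂μ ∂μ := by
      apply hs_kernel b
      · apply Measurable.mul hk
        exact (measurable_const.indicator hE).comp measurable_snd
      · filter_upwards [hsq] with x hx
        refine lt_of_le_of_lt (lintegral_mono fun y => ?_) hx
        by_cases hyE : y ∈ E
        · simp [hyE]
        · simp [hyE]
      · intro f
        filter_upwards [happ (ind hE f)] with x h2
        rw [ContinuousLinearMap.comp_apply, h2]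
        apply integral_congr_ae
        filter_upwards [ind_ae hE f] with y hy
        rw [hy]
        by_cases hyE : y ∈ E
        · simp [hyE]
        · simp [hyE]
    have h3 : ∑' i, ‖(ind hE ∘L N) (b i)‖ₑ ^ 2 = ∑' i, ‖(N ∘L ind hE) (b i)‖ₑ ^ 2 := by
      rw [hs_adjoint b, ContinuousLinearMap.adjoint_comp, ind_adjoint]
      apply tsum_congr
      intro i
      rw [ContinuousLinearMap.comp_apply, ContinuousLinearMap.comp_apply, ← ofReal_norm,
        ← ofReal_norm, hnorm]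
    have h4 : ∑' i, ‖(ind hE ∘L N) (b i)‖ₑ ^ 2 < ∞ := by
      rw [h1]
      have : ∀ x, ∫⁻ y, ‖E.indicator (fun _ => (1 : ℂ)) x * k x y‖ₑ ^ 2 ∂μ ≤
          E.indicator (fun _ => (M : ℝ≥0∞)) x := by
        intro x
        by_cases hxE : x ∈ E
        · simpa [hxE] using hxE.2
        · simp [hxE]
      refine lt_of_le_of_lt (lintegral_mono this) ?_
      rw [lintegral_indicator_const hE]
      exact ENNReal.mul_lt_top (ENNReal.natCast_lt_top M) hEfin
    rw [h3, h2] at h4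
    have hkm : Measurable fun p : X × X =>
        ‖k p.1 p.2 * E.indicator (fun _ => (1 : ℂ)) p.2‖ₑ ^ 2 := by
      apply Measurable.pow_const
      apply Measurable.enorm
      apply Measurable.mul hk
      exact (measurable_const.indicator hE).comp measurable_snd
    rw [lintegral_lintegral_swap hkm.aemeasurable] at h4
    have h5 := ae_lt_top (Measurable.lintegral_prod_left' hkm) h4.ne
    filter_upwards [h5] with y hy hyE
    simpa [hyE] using hy
  have hall := ae_all_iff.2 key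
  filter_upwards [hall, hsq] with y hy hy2
  obtain ⟨M1, hM1⟩ := exists_nat_gt (∫⁻ z, ‖k y z‖ₑ ^ 2 ∂μ).toReal
  have hM2 : y ∈ ⋃ M, spanningSets μ M := by rw [iUnion_spanningSets]; trivial
  obtain ⟨M2, hM2⟩ := mem_iUnion.1 hM2
  apply hy (max M1 M2)
  refine ⟨monotone_spanningSets μ (le_max_right _ _) hM2, ?_⟩
  show ∫⁻ z, ‖k y z‖ₑ ^ 2 ∂μ ≤ ((max M1 M2 : ℕ) : ℝ≥0∞)
  rw [← ENNReal.ofReal_toReal hy2.ne, ← ENNReal.ofReal_natCast]
  apply ENNReal.ofReal_le_ofReal
  refine hM1.le.trans ?_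
  exact_mod_cast le_max_left _ _

end General

/-- The interval `(a,b)`, `-∞ ≤ a < b ≤ ∞`. -/
def interval (a b : EReal) : Set ℝ := {x : ℝ | a < (x : EReal) ∧ (x : EReal) < b}

/-- Lebesgue measure on `(a,b)`. -/
noncomputable def leb (a b : EReal) : Measure ℝ := volume.restrict (interval a b)

/-- `L²(a,b)`. -/
abbrev L2 (a b : EReal) : Type := Lp ℂ 2 (leb a b)

/-- Bounded operators on `L²(a,b)`. -/
abbrev Op (a b : EReal) : Type := L2 a b →L[ℂ] L2 a b

/-- The inner product of `L²(a,b)`. -/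
noncomputable def ip {a b : EReal} (f g : L2 a b) : ℂ := inner ℂ f g

/-- The product `N M` of two operators. -/
noncomputable def prod {a b : EReal} (N M : Op a b) : Op a b := N.comp M

/-- `M` is the adjoint `N*` of `N`. -/
def IsAdjoint {a b : EReal} (N M : Op a b) : Prop := ∀ f g : L2 a b, ip (N f) g = ip f (M g)

/-- `N` is normal: `N N* = N* N`. -/
def IsNormal {a b : EReal} (N : Op a b) : Prop := ∃ M : Op a b, IsAdjoint N M ∧ prod N M = prod M N

/-- The function `N f` (defined almost everywhere). -/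
noncomputable def fn {a b : EReal} (N : Op a b) (f : L2 a b) : ℝ → ℂ := ⇑(N f)

/-- The function `x ↦ ∫ ν(x,y) f(y) dy`. -/
noncomputable def integralOp {a b : EReal} (ν : ℝ → ℝ → ℂ) (f : L2 a b) (x : ℝ) : ℂ :=
  ∫ y, ν x y * f y ∂(leb a b)

/-- The kernel `ν` satisfies the Carleman condition: it is a measurable function on
`(a,b) × (a,b)` and `∫ |ν(x,y)|² dy < ∞` for almost every `x`. -/
def CarlemanKernel (a b : EReal) (ν : ℝ → ℝ → ℂ) : Prop :=
  AEStronglyMeasurable (Function.uncurry ν) ((leb a b).prod (leb a b)) ∧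
  ∀ᵐ x ∂(leb a b), ∫⁻ y, ‖ν x y‖ₑ ^ 2 ∂(leb a b) < ∞

/-- The bounded operator `N` on `L²(a,b)` is a Carleman operator with kernel `ν`. -/
def IsCarleman {a b : EReal} (N : Op a b) (ν : ℝ → ℝ → ℂ) : Prop :=
  CarlemanKernel a b ν ∧ ∀ f : L2 a b, ∀ᵐ x ∂(leb a b), fn N f x = integralOp ν f x

/-- If `N` is a normal Carleman operator on `L²(a,b)` with kernel `ν`, then
`∫ |ν(x,y)|² dx < ∞` for almost every `y ∈ (a,b)`. -/
theorem result : ∀ (a b : EReal), a < b → ∀ (N : Op a b) (ν : ℝ → ℝ → ℂ),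
    IsCarleman N ν → IsNormal N → ∀ᵐ y ∂(leb a b), ∫⁻ x, ‖ν x y‖ₑ ^ 2 ∂(leb a b) < ∞ := by
  intro a b _ N ν hC hN
  have hsf : SigmaFinite (leb a b) := by unfold leb; infer_instance
  have : Fact ((2 : ℝ≥0∞) ≠ ∞) := ⟨by norm_num⟩
  have hsec : SecondCountableTopology (Lp ℂ 2 (leb a b)) := Lp.SecondCountableTopology
  obtain ⟨⟨hCm, hCsq⟩, hCa⟩ := hC
  have hmeq := hCm.ae_eq_mk
  set ν' := hCm.mk (Function.uncurry ν) with hν'
  have hν'm : Measurable ν' := hCm.stronglyMeasurable_mk.measurable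
  have hae : ∀ᵐ x ∂(leb a b), ∀ᵐ y ∂(leb a b), ν x y = ν' (x, y) :=
    Measure.ae_ae_of_ae_prod hmeq
  have hae' : ∀ᵐ y ∂(leb a b), ∀ᵐ x ∂(leb a b), ν x y = ν' (x, y) := by
    have h1 : ∀ᵐ p ∂((leb a b).prod (leb a b)), ν p.1 p.2 = ν' p := hmeq
    have h2 : ∀ᵐ p ∂((leb a b).prod (leb a b)), ν p.2 p.1 = ν' p.swap := by
      have := (Measure.measurePreserving_swap (μ := leb a b) (ν := leb a b)).quasiMeasurePreserving
      exact this.ae h1
    exact Measure.ae_ae_of_ae_prod h2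
  obtain ⟨N', hadj, hcomm⟩ := hN
  have hN' : N' = ContinuousLinearMap.adjoint N := by
    rw [ContinuousLinearMap.eq_adjoint_iff]
    intro f g
    have h1 : inner ℂ (N g) f = inner ℂ g (N' f) := hadj g f
    rw [← inner_conj_symm, ← h1, inner_conj_symm]
  have hN2 : N ∘L ContinuousLinearMap.adjoint N = ContinuousLinearMap.adjoint N ∘L N := by
    rw [← hN']
    exact hcomm
  have h := general N hN2 (fun x y => ν' (x, y))
    (hν'm : Measurable fun p : ℝ × ℝ => ν' (p.1, p.2)) (by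
      filter_upwards [hCsq, hae] with x hx hxy
      refine lt_of_eq_of_lt (lintegral_congr_ae ?_) hx
      filter_upwards [hxy] with y hy
      rw [hy]) (by
      intro f
      filter_upwards [hCa f, hae] with x hx hxy
      refine hx.trans ?_
      apply integral_congr_ae
      filter_upwards [hxy] with y hy
      rw [hy])
  filter_upwards [h, hae'] with y hy hxy
  refine lt_of_eq_of_lt (lintegral_congr_ae ?_) hy
  filter_upwards [hxy] with x hx
  rw [hx]

end Pool.Agent.Results.MP_0ee9ff_an.NormalCarleman
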